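import Mathlib
import Pool.Agent.R31.Count23
import Pool.Agent.R31.Partition

/-!
# Edge partitions into (2,3)-tight graphs and (3,6)-tightness (MP_eace5d_co)

A graph with at least four vertices and at least one edge is (3,6)-tight if and only if it has
property (P).
-/

set_option autoImplicit false
set_option linter.unusedSectionVars false

namespace Pool.Agent.Results.MP_eace5d_co.TightPartition

open Pool.Agent.R31 Count23

/-! ### Definitions -/

/-- The multigraph with vertex set `W` and edge set `S`, in which the edge `f` has the two ends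
`ends f`, is `(k, l)`-sparse: every subgraph (a set `X` of at least `k` vertices with a set `S'` of
edges having their ends in `X`) has at most `k |X| - l` edges. -/
def IsSparse {W ε : Type} (k l : ℕ) (S : Finset ε) (ends : ε → Sym2 W) : Prop :=
  ∀ (X : Finset W) (S' : Finset ε), S' ⊆ S → (∀ f ∈ S', ∀ w ∈ ends f, w ∈ X) → k ≤ X.card →
    S'.card + l ≤ k * X.card

/-- It is `(k, l)`-tight: it is `(k, l)`-sparse and has `k |W| - l` edges. -/
def IsTight {W ε : Type} [Fintype W] (k l : ℕ) (S : Finset ε) (ends : ε → Sym2 W) : Prop :=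
  IsSparse k l S ends ∧ S.card + l = k * Fintype.card W

/-- The vertex set of a graph on `V` after contracting the edge `e`: the vertices not on `e`, and
the new vertex `none`. -/
abbrev Contracted {V : Type} (e : Sym2 V) : Type := Option {v : V // v ∉ e}

open Classical in
/-- The vertex of the contracted graph corresponding to `v`. -/
noncomputable def contract {V : Type} (e : Sym2 V) (v : V) : Contracted e :=
  if h : v ∈ e then none else some ⟨v, h⟩

/-- The ends of the edge `f` after contracting `e`. -/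
noncomputable def contractEnds {V : Type} (e f : Sym2 V) : Sym2 (Contracted e) :=
  f.map (contract e)

open Classical in
/-- `(V, S) / e` is `(2, 3)`-tight: delete `e`, identify its ends, and keep all other edges of `S`
(as possibly parallel edges). -/
def ContractionTight {V : Type} [Fintype V] (S : Finset (Sym2 V)) (e : Sym2 V) : Prop :=
  IsTight 2 3 (S.erase e) (contractEnds e)

open Classical in
/-- Property (P). -/
def PropertyP {V : Type} [Fintype V] (G : SimpleGraph V) : Prop :=
  ∀ e ∈ G.edgeFinset, ∃ S₁ S₂ S₃ : Finset (Sym2 V),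
    Disjoint S₁ S₂ ∧ Disjoint S₁ S₃ ∧ Disjoint S₂ S₃ ∧ S₁ ∪ S₂ ∪ S₃ = G.edgeFinset ∧
    S₁.card = Fintype.card V - 1 ∧ S₂.card = Fintype.card V - 2 ∧
    S₃.card = Fintype.card V - 3 ∧ e ∈ S₁ ∧
    IsTight 2 3 (S₁ ∪ S₂) id ∧ ContractionTight (S₁ ∪ S₃) e ∧ ContractionTight (S₂ ∪ S₃ ∪ {e}) e

/-! ### A counting lemma -/

section Counting

variable {W : Type} [DecidableEq W] {ε : Type} [DecidableEq ε] [Fintype W]

/-- The excess of a component. -/
def ex (o : W) (X : Finset W) : ℕ := if o ∈ X then X.card - 1 else X.card - 3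

theorem excess_bound {h : ε → Finset W} {I : Finset ε} (hI : Sp h I) (h2 : ∀ f, (h f).card = 2)
    (o : W) (X₀ : Finset W) (ho : o ∈ X₀) (hsub : ∀ X ∈ comps h I, X ⊆ X₀) :
    ∑ X ∈ comps h I, ex o X + 1 ≤ X₀.card := by
  classical
  set 𝒳 := comps h I with h𝒳
  have h2X : ∀ X ∈ 𝒳, 2 ≤ X.card := fun X hX => (mem_comps.mp hX).1.1
  set 𝒞 := 𝒳.filter (fun X => o ∈ X) with h𝒞
  set B := 𝒳.filter (fun X => o ∉ X ∧ 3 ≤ X.card) with hB
  set J := 𝒞.filter (fun X => ∃ D ∈ B, (X ∩ D).Nonempty) with hJ
  set K := 𝒞.filter (fun X => ¬ ∃ D ∈ B, (X ∩ D).Nonempty) with hK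
  have hJ𝒳 : J ⊆ 𝒳 := (Finset.filter_subset _ _).trans (Finset.filter_subset _ _)
  have hK𝒳 : K ⊆ 𝒳 := (Finset.filter_subset _ _).trans (Finset.filter_subset _ _)
  have hB𝒳 : B ⊆ 𝒳 := Finset.filter_subset _ _
  have hJo : ∀ X ∈ J, o ∈ X := fun X hX =>
    (Finset.mem_filter.mp (Finset.mem_filter.mp hX).1).2
  have hKo : ∀ X ∈ K, o ∈ X := fun X hX =>
    (Finset.mem_filter.mp (Finset.mem_filter.mp hX).1).2
  have hBo : ∀ X ∈ B, o ∉ X := fun X hX => (Finset.mem_filter.mp hX).2.1
  have hB3 : ∀ X ∈ B, 3 ≤ X.card := fun X hX => (Finset.mem_filter.mp hX).2.2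
  -- the sum of the excesses
  have hsum : ∑ X ∈ 𝒳, ex o X = ∑ X ∈ J, (X.card - 1) + ∑ X ∈ K, (X.card - 1) +
      ∑ X ∈ B, (X.card - 3) := by
    rw [← Finset.sum_filter_add_sum_filter_not 𝒳 (fun X => o ∈ X)]
    have e1 : ∑ X ∈ 𝒳 with o ∈ X, ex o X = ∑ X ∈ J, (X.card - 1) + ∑ X ∈ K, (X.card - 1) := by
      rw [hJ, hK, Finset.sum_filter_add_sum_filter_not 𝒞]
      refine Finset.sum_congr rfl fun X hX => ?_
      rw [ex, if_pos (Finset.mem_filter.mp hX).2]
    have e2 : ∑ X ∈ 𝒳 with o ∉ X, ex o X = ∑ X ∈ B, (X.card - 3) := by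
      have e3 : ∑ X ∈ B, (X.card - 3) = ∑ X ∈ B, ex o X := by
        refine Finset.sum_congr rfl fun X hX => ?_
        rw [ex, if_neg (hBo X hX)]
      rw [e3]
      symm
      apply Finset.sum_subset
      · intro X hX
        rw [Finset.mem_filter] at hX ⊢
        exact ⟨hX.1, hX.2.1⟩
      · intro X hX hXB
        rw [Finset.mem_filter] at hX
        rw [ex, if_neg hX.2]
        have : ¬ 3 ≤ X.card := fun h3 => hXB (Finset.mem_filter.mpr ⟨hX.1, hX.2, h3⟩)
        omega
    rw [e1, e2]
  -- every big component meets at most one member of J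
  have hJB : J.card ≤ B.card := by
    have hex : ∀ X : Finset W, ∃ D, X ∈ J → D ∈ B ∧ (X ∩ D).Nonempty := by
      intro X
      by_cases hX : X ∈ J
      · obtain ⟨D, hD⟩ := (Finset.mem_filter.mp hX).2
        exact ⟨D, fun _ => hD⟩
      · exact ⟨∅, fun h => absurd h hX⟩
    choose g hg using hex
    refine Finset.card_le_card_of_injOn g (fun X hX => (hg X hX).1) ?_
    intro X₁ hX₁ X₂ hX₂ heq
    have hX₁' : X₁ ∈ J := hX₁
    have hX₂' : X₂ ∈ J := hX₂
    by_contra hne
    set D := g X₁ with hD
    have hDB := (hg X₁ hX₁').1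
    have m1 := (hg X₁ hX₁').2
    have m2 := (hg X₂ hX₂').2
    rw [← heq] at m2
    obtain ⟨p, hp⟩ := m1
    obtain ⟨q, hq⟩ := m2
    rw [Finset.mem_inter] at hp hq
    have hD1 : D ≠ X₁ := by
      intro h'
      exact hBo D hDB (by rw [h']; exact hJo X₁ hX₁')
    have hD2 : D ≠ X₂ := by
      intro h'
      exact hBo D hDB (by rw [h']; exact hJo X₂ hX₂')
    have hi12 := comps_inter hI (hJ𝒳 hX₁') (hJ𝒳 hX₂') hne
    have hpq : p ≠ q := by
      rintro rfl
      have ho12 : ({o, p} : Finset W) ⊆ X₁ ∩ X₂ := by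
        intro z hz
        rw [Finset.mem_insert, Finset.mem_singleton] at hz
        rw [Finset.mem_inter]
        rcases hz with rfl | rfl
        · exact ⟨hJo _ hX₁', hJo _ hX₂'⟩
        · exact ⟨hp.1, hq.1⟩
      have := Finset.card_le_card ho12
      rw [Finset.card_pair (by
        rintro rfl
        exact hBo D hDB hp.2)] at this
      omega
    have hsubc := sub_coll hI h2 (𝒮 := {D, X₁, X₂}) (by
      intro Z hZ
      simp only [Finset.mem_insert, Finset.mem_singleton] at hZ
      rcases hZ with rfl | rfl | rfl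
      · exact hB𝒳 hDB
      · exact hJ𝒳 hX₁'
      · exact hJ𝒳 hX₂') (by
      have : ({D, X₁, X₂} : Finset (Finset W)).card = 3 :=
        Finset.card_eq_three.mpr ⟨_, _, _, hD1, hD2, hne, rfl⟩
      omega)
    have hun : ({D, X₁, X₂} : Finset (Finset W)).biUnion id = D ∪ (X₁ ∪ X₂) := by
      ext z
      simp
    have hsum3 : ∑ X ∈ ({D, X₁, X₂} : Finset (Finset W)), (2 * X.card - 3) =
        (2 * D.card - 3) + ((2 * X₁.card - 3) + (2 * X₂.card - 3)) := by
      rw [Finset.sum_insert, Finset.sum_pair hne]
      simp [hD1, hD2]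
    rw [hun, hsum3] at hsubc
    have c1 := Finset.card_union_add_card_inter D (X₁ ∪ X₂)
    have c2 := Finset.card_union_add_card_inter X₁ X₂
    have c3 : 1 ≤ (X₁ ∩ X₂).card := Finset.card_pos.mpr
      ⟨o, Finset.mem_inter.mpr ⟨hJo _ hX₁', hJo _ hX₂'⟩⟩
    have c4 : 2 ≤ (D ∩ (X₁ ∪ X₂)).card := by
      have : ({p, q} : Finset W) ⊆ D ∩ (X₁ ∪ X₂) := by
        intro z hz
        rw [Finset.mem_insert, Finset.mem_singleton] at hz
        rw [Finset.mem_inter, Finset.mem_union]
        rcases hz with rfl | rfl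
        · exact ⟨hp.2, Or.inl hp.1⟩
        · exact ⟨hq.2, Or.inr hq.1⟩
      have := Finset.card_le_card this
      rwa [Finset.card_pair hpq] at this
    have d1 := h2X D (hB𝒳 hDB)
    have d2 := h2X X₁ (hJ𝒳 hX₁')
    have d3 := h2X X₂ (hJ𝒳 hX₂')
    omega
  -- the union of J and B
  set U := (J ∪ B).biUnion id with hU
  have hJBd : Disjoint J B := by
    rw [Finset.disjoint_left]
    intro X h1 h2
    exact hBo X h2 (hJo X h1)
  have claim1 : ∑ X ∈ J, (X.card - 1) + ∑ X ∈ B, (X.card - 3) ≤ (U.erase o).card := by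
    by_cases hBe : B = ∅
    · have hJe : J = ∅ := by
        rw [← Finset.card_eq_zero]
        rw [hBe, Finset.card_empty] at hJB
        omega
      rw [hJe, hBe]
      simp
    · have hBpos : 0 < B.card := Finset.card_pos.mpr (Finset.nonempty_iff_ne_empty.mpr hBe)
      by_cases hc2 : 2 ≤ (J ∪ B).card
      · have hsc := sub_coll hI h2 (𝒮 := J ∪ B) (Finset.union_subset hJ𝒳 hB𝒳) hc2
        rw [Finset.sum_union hJBd, ← hU] at hsc
        have s1 : ∑ X ∈ J, (2 * X.card - 3) + J.card = 2 * ∑ X ∈ J, (X.card - 1) := by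
          rw [Finset.mul_sum, Finset.card_eq_sum_ones, ← Finset.sum_add_distrib]
          refine Finset.sum_congr rfl fun X hX => ?_
          have := h2X X (hJ𝒳 hX)
          omega
        have s2 : ∑ X ∈ B, (2 * X.card - 3) = 2 * ∑ X ∈ B, (X.card - 3) + 3 * B.card := by
          rw [Finset.mul_sum, Finset.card_eq_sum_ones, Finset.mul_sum, ← Finset.sum_add_distrib]
          refine Finset.sum_congr rfl fun X hX => ?_
          have := hB3 X hX
          omega
        have s3 := Finset.pred_card_le_card_erase (s := U) (a := o)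
        omega
      · have hle1 : J.card + B.card ≤ 1 := by
          rw [← Finset.card_union_of_disjoint hJBd]; omega
        have hJ0 : J = ∅ := Finset.card_eq_zero.mp (by omega)
        obtain ⟨D, hD⟩ := Finset.card_eq_one.mp (show B.card = 1 by omega)
        have hDB : D ∈ B := by rw [hD]; simp
        have hUD : U = D := by
          rw [hU, hJ0, hD]
          simp
        rw [hJ0, hD, Finset.sum_empty, Finset.sum_singleton, hUD,
          Finset.erase_eq_of_notMem (hBo D hDB)]
        omega
  -- the remaining components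
  have claim2 : ∑ X ∈ K, (X.card - 1) + (U.erase o).card + 1 ≤ X₀.card := by
    have k1 : ∑ X ∈ K, (X.card - 1) = (K.biUnion (fun X => X.erase o)).card := by
      rw [Finset.card_biUnion]
      · refine Finset.sum_congr rfl fun X hX => ?_
        rw [Finset.card_erase_of_mem (hKo X hX)]
      · intro X hX Y hY hne
        rw [Function.onFun, Finset.disjoint_left]
        intro z hz hz'
        rw [Finset.mem_erase] at hz hz'
        have h3 := comps_inter hI (hK𝒳 hX) (hK𝒳 hY) hne
        have h4 : ({o, z} : Finset W) ⊆ X ∩ Y := by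
          intro w hw
          rw [Finset.mem_insert, Finset.mem_singleton] at hw
          rw [Finset.mem_inter]
          rcases hw with rfl | rfl
          · exact ⟨hKo X hX, hKo Y hY⟩
          · exact ⟨hz.2, hz'.2⟩
        have h5 := Finset.card_le_card h4
        rw [Finset.card_pair (Ne.symm hz.1)] at h5
        omega
    have k2 : Disjoint (K.biUnion (fun X => X.erase o)) (U.erase o) := by
      rw [Finset.disjoint_left]
      intro z hz hz'
      rw [Finset.mem_biUnion] at hz
      obtain ⟨X, hX, hz⟩ := hz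
      rw [Finset.mem_erase] at hz hz'
      rw [hU, Finset.mem_biUnion] at hz'
      obtain ⟨hzo, Y, hY, hzY⟩ := hz'
      rw [Finset.mem_union] at hY
      rcases hY with hY | hY
      · have hXY : X ≠ Y := by
          rintro rfl
          exact (Finset.mem_filter.mp hX).2 (Finset.mem_filter.mp hY).2
        have h3 := comps_inter hI (hK𝒳 hX) (hJ𝒳 hY) hXY
        have h4 : ({o, z} : Finset W) ⊆ X ∩ Y := by
          intro w hw
          rw [Finset.mem_insert, Finset.mem_singleton] at hw
          rw [Finset.mem_inter]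
          rcases hw with rfl | rfl
          · exact ⟨hKo X hX, hJo Y hY⟩
          · exact ⟨hz.2, hzY⟩
        have h5 := Finset.card_le_card h4
        rw [Finset.card_pair (Ne.symm hzo)] at h5
        omega
      · exact (Finset.mem_filter.mp hX).2 ⟨Y, hY, z, Finset.mem_inter.mpr ⟨hz.2, hzY⟩⟩
    have k3 : (K.biUnion (fun X => X.erase o)) ∪ (U.erase o) ⊆ X₀.erase o := by
      intro z hz
      rw [Finset.mem_union] at hz
      rw [Finset.mem_erase]
      rcases hz with hz | hz
      · rw [Finset.mem_biUnion] at hz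
        obtain ⟨X, hX, hz⟩ := hz
        rw [Finset.mem_erase] at hz
        exact ⟨hz.1, hsub X (hK𝒳 hX) hz.2⟩
      · rw [Finset.mem_erase, hU, Finset.mem_biUnion] at hz
        obtain ⟨hzo, Y, hY, hzY⟩ := hz
        rw [Finset.mem_union] at hY
        refine ⟨hzo, ?_⟩
        rcases hY with hY | hY
        · exact hsub Y (hJ𝒳 hY) hzY
        · exact hsub Y (hB𝒳 hY) hzY
    have k4 := Finset.card_le_card k3
    rw [Finset.card_union_of_disjoint k2, ← k1, Finset.card_erase_of_mem ho] at k4
    have : 0 < X₀.card := Finset.card_pos.mpr ⟨o, ho⟩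
    omega
  omega

end Counting

/-! ### The two multigraphs -/

section Graph

open Classical

variable {V : Type} [Fintype V] {G : SimpleGraph V} {e : Sym2 V}

/-- The ends of an edge as a two-element set (`P₀` for other pairs). -/
noncomputable def hG (P₀ : Finset V) (f : Sym2 V) : Finset V :=
  if f.toFinset.card = 2 then f.toFinset else P₀

/-- The ends after contraction as a two-element set (`P₀` for other pairs). -/
noncomputable def hC (e : Sym2 V) (P₀ : Finset (Contracted e)) (f : Sym2 V) :
    Finset (Contracted e) :=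
  if (contractEnds e f).toFinset.card = 2 then (contractEnds e f).toFinset else P₀

theorem hG_card {P₀ : Finset V} (hP : P₀.card = 2) (f : Sym2 V) : (hG P₀ f).card = 2 := by
  rw [hG]; split_ifs with h
  · exact h
  · exact hP

theorem hC_card {P₀ : Finset (Contracted e)} (hP : P₀.card = 2) (f : Sym2 V) :
    (hC e P₀ f).card = 2 := by
  rw [hC]; split_ifs with h
  · exact h
  · exact hP

theorem toFinset_card {W : Type} [DecidableEq W] {f : Sym2 W} (hf : ¬ f.IsDiag) :
    f.toFinset.card = 2 := Sym2.card_toFinset_of_not_isDiag f hf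

theorem hG_eq {P₀ : Finset V} {f : Sym2 V} (hf : ¬ f.IsDiag) : hG P₀ f = f.toFinset := by
  rw [hG, if_pos (toFinset_card hf)]

theorem contract_eq_none {v : V} : contract e v = none ↔ v ∈ e := by
  unfold contract
  split_ifs with h
  · simp [h]
  · simp [h]

theorem contract_inj {v w : V} (h : contract e v = contract e w) : v = w ∨ (v ∈ e ∧ w ∈ e) := by
  unfold contract at h
  split_ifs at h with h1 h2 h2
  · exact Or.inr ⟨h1, h2⟩
  · left
    exact congrArg Subtype.val (Option.some.inj h)

theorem contractEnds_not_diag {f : Sym2 V} (hf : ¬ f.IsDiag) (hfe : f ≠ e) :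
    ¬ (contractEnds e f).IsDiag := by
  induction f with
  | h a b =>
    rw [contractEnds, Sym2.map_mk, Sym2.mk_isDiag_iff]
    intro h
    rcases contract_inj h with h' | ⟨ha, hb⟩
    · exact hf h'
    · apply hfe
      have hab : a ≠ b := fun h' => hf h'
      exact ((Sym2.mem_and_mem_iff hab).mp ⟨ha, hb⟩).symm

theorem hC_eq {P₀ : Finset (Contracted e)} {f : Sym2 V} (hf : ¬ f.IsDiag)
    (hfe : f ≠ e) : hC e P₀ f = (contractEnds e f).toFinset := by
  rw [hC, if_pos (toFinset_card (contractEnds_not_diag hf hfe))]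

/-- The vertices lying over a set of vertices of the contracted graph. -/
noncomputable def lft (e : Sym2 V) (X : Finset (Contracted e)) : Finset V :=
  Finset.univ.filter (fun v => contract e v ∈ X)

theorem mem_lft {X : Finset (Contracted e)} {v : V} : v ∈ lft e X ↔ contract e v ∈ X := by
  simp [lft]

theorem contractEnds_subset {f : Sym2 V} {X : Finset (Contracted e)} :
    (contractEnds e f).toFinset ⊆ X ↔ f.toFinset ⊆ lft e X := by
  constructor
  · intro h v hv
    rw [mem_lft]
    apply h
    rw [Sym2.mem_toFinset] at hv ⊢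
    exact Sym2.mem_map.mpr ⟨v, hv, rfl⟩
  · intro h w hw
    rw [Sym2.mem_toFinset] at hw
    obtain ⟨v, hv, rfl⟩ := Sym2.mem_map.mp hw
    exact mem_lft.mp (h (Sym2.mem_toFinset.mpr hv))

theorem card_fiber_none (he : ¬ e.IsDiag) :
    (Finset.univ.filter (fun v : V => contract e v = none)).card = 2 := by
  rw [← toFinset_card he]
  congr 1
  ext v
  rw [Finset.mem_filter, Sym2.mem_toFinset]
  simp only [Finset.mem_univ, true_and]
  exact contract_eq_none

theorem card_fiber_some (u : {v : V // v ∉ e}) :
    (Finset.univ.filter (fun v : V => contract e v = some u)).card = 1 := by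
  rw [Finset.card_eq_one]
  refine ⟨u.1, ?_⟩
  ext v
  simp only [Finset.mem_filter, Finset.mem_univ, true_and, Finset.mem_singleton]
  unfold contract
  constructor
  · intro h
    split_ifs at h with h1
    exact congrArg Subtype.val (Option.some.inj h)
  · rintro rfl
    rw [dif_neg u.2]

theorem card_lft (he : ¬ e.IsDiag) (X : Finset (Contracted e)) :
    (lft e X).card = X.card + (if none ∈ X then 1 else 0) := by
  have h1 : (lft e X).card =
      ∑ w ∈ X, ((Finset.univ.filter (fun v : V => contract e v = w)).card) := by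
    rw [Finset.card_eq_sum_card_fiberwise (f := contract e) (t := X)]
    · refine Finset.sum_congr rfl fun w hw => ?_
      congr 1
      ext v
      simp only [Finset.mem_filter, mem_lft, Finset.mem_univ, true_and]
      constructor
      · exact fun h => h.2
      · intro h
        exact ⟨by rw [h]; exact hw, h⟩
    · intro v hv
      exact mem_lft.mp hv
  rw [h1]
  have h2 : ∀ w ∈ X, (Finset.univ.filter (fun v : V => contract e v = w)).card =
      1 + (if w = none then 1 else 0) := by
    intro w _
    cases w with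
    | none => rw [card_fiber_none he]; simp
    | some u => rw [card_fiber_some]; simp
  rw [Finset.sum_congr rfl h2, Finset.sum_add_distrib, Finset.sum_const, smul_eq_mul, mul_one,
    Finset.sum_ite_eq']

theorem card_image_contract (he : ¬ e.IsDiag) {X : Finset V} (hX : e.toFinset ⊆ X) :
    (X.image (contract e)).card + 1 = X.card := by
  have h1 := card_lft he (X.image (contract e))
  obtain ⟨x, hx⟩ : ∃ x, x ∈ e := by
    induction e with
    | h a b => exact ⟨a, Sym2.mem_mk_left a b⟩
  have hnone : none ∈ X.image (contract e) := by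
    rw [Finset.mem_image]
    exact ⟨x, hX (Sym2.mem_toFinset.mpr hx), contract_eq_none.mpr hx⟩
  rw [if_pos hnone] at h1
  rw [← h1]
  congr 1
  ext v
  rw [mem_lft, Finset.mem_image]
  constructor
  · rintro ⟨w, hw, hwv⟩
    rcases contract_inj hwv with rfl | ⟨h2, h3⟩
    · exact hw
    · exact hX (Sym2.mem_toFinset.mpr h3)
  · intro hv
    exact ⟨v, hv, rfl⟩

theorem card_image_contract_of_not {X : Finset V} (hX : ∀ v ∈ X, v ∉ e) :
    (X.image (contract e)).card = X.card := by
  apply Finset.card_image_of_injOn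
  intro v hv w hw h
  rcases contract_inj h with h' | ⟨h', _⟩
  · exact h'
  · exact absurd h' (hX v hv)

theorem card_contracted (he : ¬ e.IsDiag) : Fintype.card (Contracted e) + 1 = Fintype.card V := by
  have h1 := card_lft he (Finset.univ : Finset (Contracted e))
  have h2 : lft e Finset.univ = Finset.univ := by
    ext v; simp [mem_lft]
  rw [h2, if_pos (Finset.mem_univ _), Finset.card_univ, Finset.card_univ] at h1
  exact h1.symm

theorem edge_not_diag {f : Sym2 V} (hf : f ∈ G.edgeFinset) : ¬ f.IsDiag := by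
  rw [SimpleGraph.mem_edgeFinset] at hf
  exact G.not_isDiag_of_mem_edgeSet hf

/-- Sparsity in terms of the sets of ends. -/
theorem isSparse_iff_sp {W : Type} [DecidableEq W] {S : Finset (Sym2 V)} {ends : Sym2 V → Sym2 W}
    {h : Sym2 V → Finset W} (hh : ∀ f ∈ S, h f = (ends f).toFinset) :
    IsSparse 2 3 S ends ↔ Sp h S := by
  constructor
  · intro hS X hX
    refine hS X _ (Finset.filter_subset _ _) ?_ hX
    intro f hf w hw
    rw [Finset.mem_filter] at hf
    apply hf.2
    rw [hh f hf.1]
    exact Sym2.mem_toFinset.mpr hw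
  · intro hS X S' hS' hX hc
    have h1 := hS X hc
    have h2 : S'.card ≤ ins h S X := by
      apply Finset.card_le_card
      intro f hf
      rw [Finset.mem_filter]
      refine ⟨hS' hf, ?_⟩
      rw [hh f (hS' hf)]
      intro w hw
      exact hX f hf w (Sym2.mem_toFinset.mp hw)
    omega

/-- The bound given by (3,6)-sparsity. -/
theorem count36 (hG36 : IsSparse 3 6 G.edgeFinset id) (X : Finset V) (hX : 3 ≤ X.card)
    (S : Finset (Sym2 V)) (hS : S ⊆ G.edgeFinset) (hSX : ∀ f ∈ S, f.toFinset ⊆ X) :
    S.card + 6 ≤ 3 * X.card := by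
  refine hG36 X S hS ?_ hX
  intro f hf w hw
  exact hSX f hf (Sym2.mem_toFinset.mpr hw)

/-- At most one edge on two vertices. -/
theorem count_pair (X : Finset V) (hX : X.card = 2)
    (S : Finset (Sym2 V)) (hS : S ⊆ G.edgeFinset) (hSX : ∀ f ∈ S, f.toFinset ⊆ X) :
    S.card ≤ 1 := by
  rw [Finset.card_le_one]
  intro f hf g hg
  have h1 : f.toFinset = X := Finset.eq_of_subset_of_card_le (hSX f hf)
    (by rw [toFinset_card (edge_not_diag (hS hf)), hX])
  have h2 : g.toFinset = X := Finset.eq_of_subset_of_card_le (hSX g hg)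
    (by rw [toFinset_card (edge_not_diag (hS hg)), hX])
  have h3 : f.toFinset = g.toFinset := h1.trans h2.symm
  ext v
  rw [← Sym2.mem_toFinset, h3, Sym2.mem_toFinset]

variable (hG36 : IsSparse 3 6 G.edgeFinset id) (he : e ∈ G.edgeFinset)
  {P₀ : Finset V} (hP₀ : P₀.card = 2) {Q₀ : Finset (Contracted e)} (hQ₀ : Q₀.card = 2)

include hG36 he hQ₀ in
/-- The inner inequality. -/
theorem inner_ineq (X₀ : Finset V) (heX : e.toFinset ⊆ X₀) (C : Finset (Sym2 V))
    (hC0 : C ⊆ G.edgeFinset.erase e) (hCX : ∀ f ∈ C, f.toFinset ⊆ X₀) :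
    C.card + 2 ≤ rk (hC e Q₀) C + X₀.card := by
  have hed := edge_not_diag he
  have hCE : C ⊆ G.edgeFinset := hC0.trans (Finset.erase_subset _ _)
  have hCne : ∀ f ∈ C, f ≠ e := fun f hf => (Finset.mem_erase.mp (hC0 hf)).1
  have hCh : ∀ f ∈ C, hC e Q₀ f = (contractEnds e f).toFinset := fun f hf =>
    hC_eq (edge_not_diag (hCE hf)) (hCne f hf)
  have h2 := hC_card (e := e) hQ₀
  obtain ⟨I, hI, -⟩ := exists_basis (h := hC e Q₀) (F := C) (J := ∅) (Finset.empty_subset _)
    sp_empty
  rw [rk_eq hI h2, basis_card hI h2]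
  have hIm := card_image_contract hed heX
  -- components lie in the image
  have hsub : ∀ X ∈ comps (hC e Q₀) I, X ⊆ X₀.image (contract e) := by
    intro X hX
    have hXt := (mem_comps.mp hX).1
    have h3 : ins (hC e Q₀) I X = ins (hC e Q₀) I (X ∩ X₀.image (contract e)) := by
      apply le_antisymm
      · apply Finset.card_le_card
        intro f hf
        rw [Finset.mem_filter] at hf ⊢
        refine ⟨hf.1, Finset.subset_inter hf.2 ?_⟩
        rw [hCh f (hI.1 hf.1)]
        intro w hw
        rw [Sym2.mem_toFinset] at hw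
        obtain ⟨v, hv, rfl⟩ := Sym2.mem_map.mp hw
        exact Finset.mem_image_of_mem _ (hCX f (hI.1 hf.1) (Sym2.mem_toFinset.mpr hv))
      · exact ins_mono_right Finset.inter_subset_left
    by_cases hc : 2 ≤ (X ∩ X₀.image (contract e)).card
    · have h4 := hI.2.1 _ hc
      have h5 : X ∩ X₀.image (contract e) = X := by
        apply Finset.eq_of_subset_of_card_le Finset.inter_subset_left
        have := hXt.2
        omega
      rw [← h5]
      exact Finset.inter_subset_right
    · exfalso
      have h4 : ins (hC e Q₀) I (X ∩ X₀.image (contract e)) = 0 := by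
        rw [ins, Finset.card_eq_zero, Finset.filter_eq_empty_iff]
        intro f _ hf
        have := Finset.card_le_card hf
        rw [h2] at this
        omega
      have := hXt.1
      have := hXt.2
      omega
  obtain ⟨x, hx⟩ : ∃ x, x ∈ e := by
    induction e with
    | h a b => exact ⟨a, Sym2.mem_mk_left a b⟩
  have hnone : none ∈ X₀.image (contract e) :=
    Finset.mem_image.mpr ⟨x, heX (Sym2.mem_toFinset.mpr hx), contract_eq_none.mpr hx⟩
  have hexc := excess_bound hI.2.1 h2 none _ hnone hsub
  -- every component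
  have hcomp : ∀ X ∈ comps (hC e Q₀) I, ins (hC e Q₀) C X ≤ (2 * X.card - 3) + ex none X := by
    intro X hX
    have hX2 := (mem_comps.mp hX).1.1
    have hlft := card_lft hed X
    have hin : ∀ f ∈ C.filter (fun f => hC e Q₀ f ⊆ X), f.toFinset ⊆ lft e X := by
      intro f hf
      rw [Finset.mem_filter] at hf
      rw [← contractEnds_subset, ← hCh f hf.1]
      exact hf.2
    have hsubE : C.filter (fun f => hC e Q₀ f ⊆ X) ⊆ G.edgeFinset :=
      (Finset.filter_subset _ _).trans hCE
    rw [ex]
    by_cases hn : none ∈ X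
    · rw [if_pos hn] at hlft ⊢
      have heln : e.toFinset ⊆ lft e X := by
        intro v hv
        rw [mem_lft, contract_eq_none.mpr (Sym2.mem_toFinset.mp hv)]
        exact hn
      have h3 := count36 hG36 (lft e X) (by omega)
        (insert e (C.filter (fun f => hC e Q₀ f ⊆ X))) (Finset.insert_subset he hsubE) (by
          intro f hf
          rw [Finset.mem_insert] at hf
          rcases hf with rfl | hf
          · exact heln
          · exact hin f hf)
      rw [Finset.card_insert_of_notMem (fun h => hCne e (Finset.mem_filter.mp h).1 rfl)] at h3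
      rw [ins]
      omega
    · rw [if_neg hn] at hlft ⊢
      by_cases h3X : 3 ≤ X.card
      · have h3 := count36 hG36 (lft e X) (by omega) _ hsubE hin
        rw [ins]
        omega
      · have h3 := count_pair (lft e X) (by omega) _ hsubE hin
        rw [ins]
        omega
  have htot := sum_ins_all hI h2 (S := C) subset_rfl
  have hle : C.card ≤ ∑ X ∈ comps (hC e Q₀) I, ((2 * X.card - 3) + ex none X) := by
    rw [← htot]
    exact Finset.sum_le_sum hcomp
  rw [Finset.sum_add_distrib] at hle
  omega

include hG36 he hP₀ hQ₀ in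
/-- The outer inequality. -/
theorem outer_ineq (C : Finset (Sym2 V)) (hC0 : C ⊆ G.edgeFinset.erase e) :
    2 * C.card + 1 ≤ 2 * rk (hC e Q₀) C + rk (hG P₀) (insert e C) := by
  have hed := edge_not_diag he
  have hCE : C ⊆ G.edgeFinset := hC0.trans (Finset.erase_subset _ _)
  have hCne : ∀ f ∈ C, f ≠ e := fun f hf => (Finset.mem_erase.mp (hC0 hf)).1
  have heC : e ∉ C := fun h => hCne e h rfl
  have hCh : ∀ f ∈ C, hC e Q₀ f = (contractEnds e f).toFinset := fun f hf =>
    hC_eq (edge_not_diag (hCE hf)) (hCne f hf)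
  have hGh : ∀ f ∈ G.edgeFinset, hG P₀ f = f.toFinset := fun f hf => hG_eq (edge_not_diag hf)
  have h2 := hC_card (e := e) hQ₀
  have g2 := hG_card hP₀
  -- a basis of `C + e` containing `e`
  have hse : Sp (hG P₀) {e} := by
    intro X hX
    have : ins (hG P₀) {e} X ≤ 1 := by
      rw [ins]
      exact le_trans (Finset.card_le_card (Finset.filter_subset _ _)) (Finset.card_singleton e).le
    omega
  obtain ⟨I, hI, heI'⟩ := exists_basis (h := hG P₀) (F := insert e C) (J := {e})
    (Finset.singleton_subset_iff.mpr (Finset.mem_insert_self _ _)) hse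
  have heI : e ∈ I := Finset.singleton_subset_iff.mp heI'
  have hIE : I ⊆ G.edgeFinset := hI.1.trans (Finset.insert_subset he hCE)
  obtain ⟨X₀, hX₀, heX₀⟩ := basis_cover hI g2 e (Finset.mem_insert_self _ _)
  rw [hGh e he] at heX₀
  have hX₀t := (mem_comps.mp hX₀)
  set C₀ := C.filter (fun f => hG P₀ f ⊆ X₀) with hC₀
  set C₁ := C.filter (fun f => ¬ hG P₀ f ⊆ X₀) with hC₁
  set I₁ := I.filter (fun f => ¬ hG P₀ f ⊆ X₀) with hI₁
  have hCsplit : C₀.card + C₁.card = C.card := Finset.card_filter_add_card_filter_not _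
  have hIsplit : ins (hG P₀) I X₀ + I₁.card = I.card := Finset.card_filter_add_card_filter_not _
  have hI₁C : I₁ ⊆ C := by
    intro f hf
    rw [hI₁, Finset.mem_filter] at hf
    have := hI.1 hf.1
    rw [Finset.mem_insert] at this
    rcases this with rfl | h
    · exfalso
      apply hf.2
      rw [hGh _ he]
      exact heX₀
    · exact h
  have hI₁I : I₁ ⊆ I := Finset.filter_subset _ _
  have heI₁ : e ∉ I₁ := fun h => heC (hI₁C h)
  -- the inner part
  have hC₀C : C₀ ⊆ C := Finset.filter_subset _ _
  have hin := inner_ineq (Q₀ := Q₀) hG36 he hQ₀ X₀ heX₀ C₀ (hC₀C.trans hC0) (by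
    intro f hf
    have h3 := (Finset.mem_filter.mp hf).2
    rwa [hGh f (hCE (hC₀C hf))] at h3)
  -- the outer edges
  have hout : 2 * C₁.card ≤ 3 * I₁.card := by
    have hsubc : (comps (hG P₀) I).erase X₀ ⊆ comps (hG P₀) I := Finset.erase_subset _ _
    have e1 : C₁.card = ∑ X ∈ (comps (hG P₀) I).erase X₀, ins (hG P₀) C₁ X := by
      rw [sum_ins_eq hI.2.1 g2 hsubc]
      congr 1
      symm
      rw [Finset.filter_eq_self]
      intro f hf
      obtain ⟨X, hX, hfX⟩ := basis_cover hI g2 f
        (Finset.mem_insert_of_mem (Finset.mem_filter.mp hf).1)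
      refine ⟨X, Finset.mem_erase.mpr ⟨?_, hX⟩, hfX⟩
      rintro rfl
      exact (Finset.mem_filter.mp hf).2 hfX
    have e2 : I₁.card = ∑ X ∈ (comps (hG P₀) I).erase X₀, (2 * X.card - 3) := by
      have h3 := basis_card hI g2
      rw [← Finset.add_sum_erase _ _ hX₀] at h3
      have h4 := hX₀t.1.2
      omega
    rw [e1, e2, Finset.mul_sum, Finset.mul_sum]
    refine Finset.sum_le_sum fun X hX => ?_
    have hX2 := (mem_comps.mp (hsubc hX)).1.1
    have hsubE : C₁.filter (fun f => hG P₀ f ⊆ X) ⊆ G.edgeFinset :=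
      ((Finset.filter_subset _ _).trans (Finset.filter_subset _ _)).trans hCE
    have hinX : ∀ f ∈ C₁.filter (fun f => hG P₀ f ⊆ X), f.toFinset ⊆ X := by
      intro f hf
      rw [← hGh f (hsubE hf)]
      exact (Finset.mem_filter.mp hf).2
    by_cases h3X : 3 ≤ X.card
    · have h3 := count36 hG36 X h3X _ hsubE hinX
      rw [ins]
      omega
    · have h3 := count_pair X (by omega) _ hsubE hinX
      rw [ins]
      omega
  -- a basis of the inner part in the contraction
  obtain ⟨K, hK, -⟩ := exists_basis (h := hC e Q₀) (F := C₀) (J := ∅) (Finset.empty_subset _)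
    sp_empty
  have hKC : K ⊆ C := hK.1.trans hC₀C
  have hKX : ∀ f ∈ K, f.toFinset ⊆ X₀ := by
    intro f hf
    have h3 := (Finset.mem_filter.mp (hK.1 hf)).2
    rwa [hGh f (hCE (hKC hf))] at h3
  have hKI : Disjoint K I₁ := by
    rw [Finset.disjoint_left]
    intro f hf hf'
    exact (Finset.mem_filter.mp hf').2 (Finset.mem_filter.mp (hK.1 hf)).2
  have hLC : K ∪ I₁ ⊆ C := Finset.union_subset hKC hI₁C
  have hLsp : Sp (hC e Q₀) (K ∪ I₁) := by
    intro X' hX'
    set X := lft e X' with hX
    have hlft := card_lft hed X'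
    rw [← hX] at hlft
    have e1 : ins (hC e Q₀) (K ∪ I₁) X' = ins (hG P₀) (K ∪ I₁) X := by
      unfold ins
      congr 1
      ext f
      simp only [Finset.mem_filter]
      constructor
      · rintro ⟨h3, h4⟩
        refine ⟨h3, ?_⟩
        rw [hCh f (hLC h3), contractEnds_subset] at h4
        rw [hGh f (hCE (hLC h3))]
        exact h4
      · rintro ⟨h3, h4⟩
        refine ⟨h3, ?_⟩
        rw [hCh f (hLC h3), contractEnds_subset]
        rw [hGh f (hCE (hLC h3))] at h4
        exact h4
    have e2 : ins (hG P₀) (K ∪ I₁) X ≤ ins (hG P₀) K X + ins (hG P₀) I₁ X := by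
      unfold ins
      rw [Finset.filter_union]
      exact Finset.card_union_le _ _
    have e3 : ins (hG P₀) K X = ins (hG P₀) K (X ∩ X₀) := by
      apply le_antisymm
      · apply Finset.card_le_card
        intro f hf
        rw [Finset.mem_filter] at hf ⊢
        refine ⟨hf.1, Finset.subset_inter hf.2 ?_⟩
        rw [hGh f (hCE (hKC hf.1))]
        exact hKX f hf.1
      · exact ins_mono_right Finset.inter_subset_left
    have hX2 : 2 ≤ X.card := by omega
    have e4 : ins (hG P₀) I₁ X + 3 ≤ 2 * X.card := by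
      have := hI.2.1 X hX2
      have := ins_mono_left (h := hG P₀) (X := X) hI₁I
      omega
    have e5 : ins (hG P₀) I₁ X + 2 * (X ∩ X₀).card ≤ 2 * X.card := by
      have h3 := hI.2.1 (X ∪ X₀) (le_trans hX2 (Finset.card_le_card Finset.subset_union_left))
      have h4 : ins (hG P₀) I₁ X + ins (hG P₀) I X₀ ≤ ins (hG P₀) I (X ∪ X₀) := by
        unfold ins
        rw [← Finset.card_union_of_disjoint]
        · apply Finset.card_le_card
          intro f hf
          rw [Finset.mem_filter]
          rcases Finset.mem_union.mp hf with h' | h'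
          · obtain ⟨h5, h6⟩ := Finset.mem_filter.mp h'
            exact ⟨hI₁I h5, h6.trans Finset.subset_union_left⟩
          · obtain ⟨h5, h6⟩ := Finset.mem_filter.mp h'
            exact ⟨h5, h6.trans Finset.subset_union_right⟩
        · rw [Finset.disjoint_left]
          intro f hf hf'
          exact (Finset.mem_filter.mp (Finset.mem_filter.mp hf).1).2 (Finset.mem_filter.mp hf').2
      have h5 := Finset.card_union_add_card_inter X X₀
      have h6 := hX₀t.1.2
      omega
    -- edges of K inside a subset of X₀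
    have e6 : ins (hG P₀) K (X ∩ X₀) ≤ ins (hC e Q₀) K ((X ∩ X₀).image (contract e)) := by
      apply Finset.card_le_card
      intro f hf
      rw [Finset.mem_filter] at hf ⊢
      refine ⟨hf.1, ?_⟩
      rw [hCh f (hKC hf.1)]
      intro w hw
      rw [Sym2.mem_toFinset] at hw
      obtain ⟨v, hv, rfl⟩ := Sym2.mem_map.mp hw
      apply Finset.mem_image_of_mem
      apply hf.2
      rw [hGh f (hCE (hKC hf.1))]
      exact Sym2.mem_toFinset.mpr hv
    have e7 : (X ∩ X₀).card ≤ 1 → ins (hG P₀) K (X ∩ X₀) = 0 := by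
      intro hc
      rw [ins, Finset.card_eq_zero, Finset.filter_eq_empty_iff]
      intro f _ hf
      have := Finset.card_le_card hf
      rw [g2] at this
      omega
    by_cases hn : none ∈ X'
    · rw [if_pos hn] at hlft
      have heX : e.toFinset ⊆ X := by
        intro v hv
        rw [hX, mem_lft, contract_eq_none.mpr (Sym2.mem_toFinset.mp hv)]
        exact hn
      have heXX : e.toFinset ⊆ X ∩ X₀ := Finset.subset_inter heX heX₀
      have hm := card_image_contract hed heXX
      have hec := toFinset_card hed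
      have hm2 := Finset.card_le_card heXX
      rw [hec] at hm2
      by_cases hm3 : 3 ≤ (X ∩ X₀).card
      · have h3 := hK.2.1 ((X ∩ X₀).image (contract e)) (by omega)
        omega
      · -- the intersection is just `e`
        have heq : e.toFinset = X ∩ X₀ := Finset.eq_of_subset_of_card_le heXX (by omega)
        have h3 : ins (hG P₀) K (X ∩ X₀) = 0 := by
          rw [ins, Finset.card_eq_zero, Finset.filter_eq_empty_iff]
          intro f hf hf'
          rw [hGh f (hCE (hKC hf)), ← heq] at hf'
          have h4 : f.toFinset = e.toFinset := Finset.eq_of_subset_of_card_le hf'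
            (by rw [hec, toFinset_card (edge_not_diag (hCE (hKC hf)))])
          apply hCne f (hKC hf)
          ext v
          rw [← Sym2.mem_toFinset, h4, Sym2.mem_toFinset]
        have h4 : ins (hG P₀) I₁ X + 1 ≤ ins (hG P₀) I X := by
          rw [← ins_insert_of (h := hG P₀) (f := e) (S := I₁) (X := X)
            (by rw [hGh e he]; exact heX) heI₁]
          exact ins_mono_left (Finset.insert_subset heI hI₁I)
        have h5 := hI.2.1 X hX2
        have h6 : ins (hG P₀) I X + 3 ≠ 2 * X.card := by
          intro h7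
          have ht := tight_union hI.2.1 (X := X) (Y := X₀) ⟨hX2, h7⟩ hX₀t.1 (by omega)
          have h8 := hX₀t.2 _ ht Finset.subset_union_right
          have h9 : X ⊆ X₀ := by
            rw [← h8]; exact Finset.subset_union_left
          have h10 : X ∩ X₀ = X := Finset.inter_eq_left.mpr h9
          rw [h10] at hm3
          omega
        omega
    · rw [if_neg hn] at hlft
      have hXe : ∀ v ∈ X ∩ X₀, v ∉ e := by
        intro v hv hve
        rw [Finset.mem_inter, hX, mem_lft, contract_eq_none.mpr hve] at hv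
        exact hn hv.1
      have hm := card_image_contract_of_not hXe
      by_cases hm2 : 2 ≤ (X ∩ X₀).card
      · have h3 := hK.2.1 ((X ∩ X₀).image (contract e)) (by omega)
        omega
      · have h3 := e7 (by omega)
        omega
  have hrk1 : rk (hC e Q₀) C₀ + I₁.card ≤ rk (hC e Q₀) C := by
    rw [rk_eq hK h2, ← Finset.card_union_of_disjoint hKI]
    exact le_rk hLC hLsp
  have hrk2 : rk (hG P₀) (insert e C) = I.card := rk_eq hI g2
  have h3 := hX₀t.1.2
  have h4 := hX₀t.1.1
  omega

include hG36 he hP₀ hQ₀ in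
/-- The sets given by the partition theorem. -/
theorem exists_sets : ∃ I : Fin 3 → Finset (Sym2 V),
    (∀ i, I i ⊆ G.edgeFinset.erase e) ∧
    (∀ f ∈ G.edgeFinset.erase e, (Finset.univ.filter (fun i => f ∈ I i)).card = 2) ∧
    Sp (hC e Q₀) (I 0) ∧ Sp (hC e Q₀) (I 1) ∧ Sp (hG P₀) (insert e (I 2)) := by
  have h2 := hC_card (e := e) hQ₀
  have g2 := hG_card hP₀
  let pr : Finset (Sym2 V × Bool) → Finset (Sym2 V) := fun A => A.image Prod.fst
  have hpr_mono : ∀ A B, A ⊆ B → pr A ⊆ pr B := fun A B h => Finset.image_subset_image h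
  have hpr_union : ∀ A B, pr (A ∪ B) = pr A ∪ pr B := fun A B => Finset.image_union _ _
  have hpr_inter : ∀ A B, pr (A ∩ B) ⊆ pr A ∩ pr B := fun A B => Finset.image_inter_subset _ _ _
  have hpr_insert : ∀ A a, pr (insert a A) = insert a.1 (pr A) := fun A a =>
    Finset.image_insert _ _ _
  have hrC : Partition.IsRank (fun A => rk (hC e Q₀) (pr A)) := by
    refine ⟨fun A B h => rk_mono (hpr_mono A B h), fun A B => ?_, fun A a => ?_⟩
    · have h3 := rk_submod h2 (pr A) (pr B)
      have h4 : rk (hC e Q₀) (pr (A ∩ B)) ≤ rk (hC e Q₀) (pr A ∩ pr B) := rk_mono (hpr_inter A B)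
      change rk (hC e Q₀) (pr (A ∪ B)) + _ ≤ _
      rw [hpr_union]
      omega
    · rw [hpr_insert]
      exact rk_insert_le
  have hrG : Partition.IsRank (fun A => rk (hG P₀) (insert e (pr A))) := by
    refine ⟨fun A B h => rk_mono (Finset.insert_subset_insert _ (hpr_mono A B h)),
      fun A B => ?_, fun A a => ?_⟩
    · have h3 := rk_submod g2 (insert e (pr A)) (insert e (pr B))
      have h4 : rk (hG P₀) (insert e (pr (A ∩ B))) ≤
          rk (hG P₀) (insert e (pr A) ∩ insert e (pr B)) := by
        apply rk_mono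
        rw [← Finset.insert_inter_distrib]
        exact Finset.insert_subset_insert _ (hpr_inter A B)
      change rk (hG P₀) (insert e (pr (A ∪ B))) + _ ≤ _
      rw [hpr_union, Finset.insert_union_distrib]
      omega
    · rw [hpr_insert, Finset.insert_comm]
      exact rk_insert_le
  let r : Fin 3 → Finset (Sym2 V × Bool) → ℕ := fun i =>
    if i = 2 then (fun A => rk (hG P₀) (insert e (pr A))) else (fun A => rk (hC e Q₀) (pr A))
  have hr0 : r 0 = fun A => rk (hC e Q₀) (pr A) := rfl
  have hr1 : r 1 = fun A => rk (hC e Q₀) (pr A) := rfl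
  have hr2 : r 2 = fun A => rk (hG P₀) (insert e (pr A)) := rfl
  have hr : ∀ i, Partition.IsRank (r i) := by
    intro i
    fin_cases i
    · exact hrC
    · exact hrC
    · exact hrG
  set F : Finset (Sym2 V × Bool) := (G.edgeFinset.erase e) ×ˢ Finset.univ with hF
  have hrkempty : rk (hC e Q₀) ∅ = 0 := by
    rw [rk, Finset.powerset_empty]
    apply Nat.le_zero.mp
    apply Finset.sup_le
    intro J hJ
    rw [Finset.mem_filter, Finset.mem_singleton] at hJ
    rw [hJ.1, Finset.card_empty]
  have hrke : rk (hG P₀) {e} ≤ 1 := by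
    rw [rk]
    apply Finset.sup_le
    intro J hJ
    rw [Finset.mem_filter, Finset.mem_powerset] at hJ
    exact le_trans (Finset.card_le_card hJ.1) (Finset.card_singleton e).le
  have hempty : pr ∅ = ∅ := Finset.image_empty _
  obtain ⟨φ, hφ⟩ := Partition.partition F.card F r hr rfl (by
    intro F' hF'
    rw [Fin.sum_univ_three, Fin.sum_univ_three, hr0, hr1, hr2]
    simp only [hempty, hrkempty, insert_empty_eq]
    have h3 : pr F' ⊆ G.edgeFinset.erase e := by
      intro f hf
      obtain ⟨a, ha, rfl⟩ := Finset.mem_image.mp hf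
      exact (Finset.mem_product.mp (hF' ha)).1
    have h4 := outer_ineq hG36 he hP₀ hQ₀ (pr F') h3
    have h5 : F'.card ≤ 2 * (pr F').card := by
      have h6 : F' ⊆ pr F' ×ˢ Finset.univ := by
        intro a ha
        rw [Finset.mem_product]
        exact ⟨Finset.mem_image_of_mem _ ha, Finset.mem_univ _⟩
      have := Finset.card_le_card h6
      rw [Finset.card_product] at this
      have hb : (Finset.univ : Finset Bool).card = 2 := rfl
      rw [hb] at this
      omega
    omega)
  let Fi : Fin 3 → Finset (Sym2 V × Bool) := fun i => F.filter (fun a => φ a = i)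
  have hFi0 : rk (hC e Q₀) (pr (Fi 0)) = (Fi 0).card := by
    have := hφ 0
    rw [hr0] at this
    simp only [hempty, hrkempty, zero_add] at this
    exact this
  have hFi1 : rk (hC e Q₀) (pr (Fi 1)) = (Fi 1).card := by
    have := hφ 1
    rw [hr1] at this
    simp only [hempty, hrkempty, zero_add] at this
    exact this
  have hrke1 : 1 ≤ rk (hG P₀) {e} := by
    have h3 := le_rk (h := hG P₀) (J := {e}) (F := {e}) subset_rfl (by
      intro X hX
      have : ins (hG P₀) {e} X ≤ 1 := by
        rw [ins]
        exact le_trans (Finset.card_le_card (Finset.filter_subset _ _)) (Finset.card_singleton e).le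
      omega)
    rwa [Finset.card_singleton] at h3
  have hFi2 : rk (hG P₀) (insert e (pr (Fi 2))) = 1 + (Fi 2).card := by
    have := hφ 2
    rw [hr2] at this
    simp only [hempty, insert_empty_eq] at this
    have h3 : rk (hG P₀) {e} = 1 := le_antisymm hrke hrke1
    rw [h3] at this
    exact this
  have hrkle : ∀ (h : Sym2 V → Finset V) (A : Finset (Sym2 V)), rk h A ≤ A.card := by
    intro h A
    rw [rk]
    apply Finset.sup_le
    intro J hJ
    rw [Finset.mem_filter, Finset.mem_powerset] at hJ
    exact Finset.card_le_card hJ.1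
  have hrkle' : ∀ (h : Sym2 V → Finset (Contracted e)) (A : Finset (Sym2 V)), rk h A ≤ A.card := by
    intro h A
    rw [rk]
    apply Finset.sup_le
    intro J hJ
    rw [Finset.mem_filter, Finset.mem_powerset] at hJ
    exact Finset.card_le_card hJ.1
  have hprle : ∀ A, (pr A).card ≤ A.card := fun A => Finset.card_image_le
  have hprsub : ∀ i, pr (Fi i) ⊆ G.edgeFinset.erase e := by
    intro i f hf
    obtain ⟨a, ha, rfl⟩ := Finset.mem_image.mp hf
    exact (Finset.mem_product.mp (Finset.mem_filter.mp ha).1).1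
  have hc0 : (pr (Fi 0)).card = (Fi 0).card := by
    have := hrkle' (hC e Q₀) (pr (Fi 0))
    have := hprle (Fi 0)
    omega
  have hc1 : (pr (Fi 1)).card = (Fi 1).card := by
    have := hrkle' (hC e Q₀) (pr (Fi 1))
    have := hprle (Fi 1)
    omega
  have hc2' : (insert e (pr (Fi 2))).card = (pr (Fi 2)).card + 1 := by
    rw [Finset.card_insert_of_notMem]
    intro h
    exact (Finset.mem_erase.mp (hprsub 2 h)).1 rfl
  have hc2 : (pr (Fi 2)).card = (Fi 2).card := by
    have := hrkle (hG P₀) (insert e (pr (Fi 2)))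
    have := hprle (Fi 2)
    omega
  have hinj : ∀ i, Set.InjOn Prod.fst (Fi i : Set (Sym2 V × Bool)) := by
    intro i
    fin_cases i
    · exact Finset.card_image_iff.mp hc0
    · exact Finset.card_image_iff.mp hc1
    · exact Finset.card_image_iff.mp hc2
  refine ⟨fun i => pr (Fi i), hprsub, ?_, ?_, ?_, ?_⟩
  · intro f hf
    have hmem : ∀ b, (f, b) ∈ Fi (φ (f, b)) := by
      intro b
      rw [Finset.mem_filter]
      exact ⟨Finset.mem_product.mpr ⟨hf, Finset.mem_univ _⟩, rfl⟩
    have hne : φ (f, true) ≠ φ (f, false) := by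
      intro h
      have h4 : (f, false) ∈ Fi (φ (f, true)) := by rw [h]; exact hmem false
      have h3 : (f, true) = (f, false) := hinj (φ (f, true)) (hmem true) h4 rfl
      exact absurd (congrArg Prod.snd h3) (by simp)
    have heq : Finset.univ.filter (fun i => f ∈ pr (Fi i)) = {φ (f, true), φ (f, false)} := by
      ext i
      simp only [Finset.mem_filter, Finset.mem_univ, true_and, Finset.mem_insert,
        Finset.mem_singleton]
      constructor
      · intro h
        obtain ⟨⟨f', b⟩, ha, hff⟩ := Finset.mem_image.mp h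
        have hff' : f' = f := hff
        subst hff'
        have h3 : φ (f', b) = i := (Finset.mem_filter.mp ha).2
        cases b with
        | true => left; exact h3.symm
        | false => right; exact h3.symm
      · rintro (rfl | rfl)
        · exact Finset.mem_image.mpr ⟨_, hmem true, rfl⟩
        · exact Finset.mem_image.mpr ⟨_, hmem false, rfl⟩
    rw [heq, Finset.card_pair hne]
  · apply sp_of_rk h2
    rw [hFi0, hc0]
  · apply sp_of_rk h2
    rw [hFi1, hc1]
  · apply sp_of_rk g2
    rw [hFi2, hc2', hc2]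
    omega

end Graph

open Classical in
/-- (P) implies (3,6)-tightness. -/
theorem tight_of_P {V : Type} [Fintype V] (G : SimpleGraph V) (hV : 4 ≤ Fintype.card V)
    (hne : G.edgeFinset.Nonempty) (hP : PropertyP G) : IsTight 3 6 G.edgeFinset id := by
  refine ⟨?_, ?_⟩
  · intro X S' hS' hX hc
    by_cases hS'e : S' = ∅
    · rw [hS'e, Finset.card_empty]
      omega
    obtain ⟨e, heS'⟩ := Finset.nonempty_iff_ne_empty.mpr hS'e
    have he := hS' heS'
    have hed : ¬ e.IsDiag := edge_not_diag he
    obtain ⟨S₁, S₂, S₃, d12, d13, d23, hun, -, -, -, he1, t1, t2, t3⟩ := hP e he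
    have heX : e.toFinset ⊆ X := by
      intro v hv
      exact hX e heS' v (Sym2.mem_toFinset.mp hv)
    have hXim := card_image_contract hed heX
    have hX2 : 2 ≤ (X.image (contract e)).card := by omega
    have he2 : e ∉ S₂ := fun h => Finset.disjoint_left.mp d12 he1 h
    have he3 : e ∉ S₃ := fun h => Finset.disjoint_left.mp d13 he1 h
    -- first
    have b1 := t1.1 X ((S' ∩ S₁) ∪ (S' ∩ S₂)) (Finset.union_subset_union Finset.inter_subset_right
      Finset.inter_subset_right) (by
        intro f hf w hw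
        rw [Finset.mem_union, Finset.mem_inter, Finset.mem_inter] at hf
        rcases hf with hf | hf
        · exact hX f hf.1 w hw
        · exact hX f hf.1 w hw) (by omega)
    have hends : ∀ f ∈ S', ∀ w ∈ contractEnds e f, w ∈ X.image (contract e) := by
      intro f hf w hw
      obtain ⟨v, hv, rfl⟩ := Sym2.mem_map.mp hw
      exact Finset.mem_image_of_mem _ (hX f hf v hv)
    have b2 := t2.1 (X.image (contract e)) (((S' ∩ S₁).erase e) ∪ (S' ∩ S₃)) (by
      intro f hf
      rw [Finset.mem_union, Finset.mem_erase, Finset.mem_inter, Finset.mem_inter] at hf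
      rw [Finset.mem_erase, Finset.mem_union]
      rcases hf with hf | hf
      · exact ⟨hf.1, Or.inl hf.2.2⟩
      · exact ⟨fun h => he3 (h ▸ hf.2), Or.inr hf.2⟩) (by
      intro f hf
      rw [Finset.mem_union, Finset.mem_erase, Finset.mem_inter, Finset.mem_inter] at hf
      rcases hf with hf | hf
      · exact hends f hf.2.1
      · exact hends f hf.1) hX2
    have b3 := t3.1 (X.image (contract e)) ((S' ∩ S₂) ∪ (S' ∩ S₃)) (by
      intro f hf
      rw [Finset.mem_union, Finset.mem_inter, Finset.mem_inter] at hf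
      rw [Finset.mem_erase, Finset.mem_union, Finset.mem_union]
      rcases hf with hf | hf
      · exact ⟨fun h => he2 (h ▸ hf.2), Or.inl (Or.inl hf.2)⟩
      · exact ⟨fun h => he3 (h ▸ hf.2), Or.inl (Or.inr hf.2)⟩) (by
      intro f hf
      rw [Finset.mem_union, Finset.mem_inter, Finset.mem_inter] at hf
      rcases hf with hf | hf
      · exact hends f hf.1
      · exact hends f hf.1) hX2
    have i12 : Disjoint (S' ∩ S₁) (S' ∩ S₂) :=
      d12.mono Finset.inter_subset_right Finset.inter_subset_right
    have i13 : Disjoint (S' ∩ S₁) (S' ∩ S₃) :=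
      d13.mono Finset.inter_subset_right Finset.inter_subset_right
    have i23 : Disjoint (S' ∩ S₂) (S' ∩ S₃) :=
      d23.mono Finset.inter_subset_right Finset.inter_subset_right
    rw [Finset.card_union_of_disjoint i12] at b1
    rw [Finset.card_union_of_disjoint (i13.mono_left (Finset.erase_subset _ _)),
      Finset.card_erase_of_mem (Finset.mem_inter.mpr ⟨heS', he1⟩)] at b2
    rw [Finset.card_union_of_disjoint i23] at b3
    have htot : S'.card = (S' ∩ S₁).card + (S' ∩ S₂).card + (S' ∩ S₃).card := by
      rw [← Finset.card_union_of_disjoint i12, ← Finset.card_union_of_disjoint]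
      · congr 1
        rw [← Finset.inter_union_distrib_left, ← Finset.inter_union_distrib_left, hun]
        exact (Finset.inter_eq_left.mpr hS').symm
      · rw [Finset.disjoint_union_left]
        exact ⟨i13, i23⟩
    have hpos : 0 < (S' ∩ S₁).card := Finset.card_pos.mpr ⟨e, Finset.mem_inter.mpr ⟨heS', he1⟩⟩
    omega
  · obtain ⟨e, he⟩ := hne
    obtain ⟨S₁, S₂, S₃, d12, d13, d23, hun, c1, c2, c3, -, -, -, -⟩ := hP e he
    rw [← hun, Finset.card_union_of_disjoint, Finset.card_union_of_disjoint d12, c1, c2, c3]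
    · omega
    · rw [Finset.disjoint_union_left]
      exact ⟨d13, d23⟩

theorem pattern {a b c : Prop} (h : (a ∧ b ∧ ¬ c) ∨ (a ∧ ¬ b ∧ c) ∨ (¬ a ∧ b ∧ c)) :
    ((¬ b ∨ ¬ c) ↔ a) ∧ ((¬ a ∨ ¬ c) ↔ b) ∧ ((¬ b ∨ ¬ a) ↔ c) ∧ ¬ (¬ b ∧ ¬ a) ∧ ¬ (¬ b ∧ ¬ c) ∧
      ¬ (¬ a ∧ ¬ c) ∧ (¬ b ∨ ¬ a ∨ ¬ c) := by
  tauto

open Classical in
/-- (3,6)-tightness implies (P). -/
theorem P_of_tight {V : Type} [Fintype V] (G : SimpleGraph V) (hV : 4 ≤ Fintype.card V)
    (hG36 : IsTight 3 6 G.edgeFinset id) : PropertyP G := by
  intro e he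
  have hed : ¬ e.IsDiag := edge_not_diag he
  have hcc := card_contracted hed
  obtain ⟨Q₀, -, hQ₀⟩ := Finset.exists_subset_card_eq
    (show 2 ≤ (Finset.univ : Finset (Contracted e)).card by rw [Finset.card_univ]; omega)
  have hP₀ : e.toFinset.card = 2 := toFinset_card hed
  obtain ⟨I, hIsub, hI2, hI0, hI1, hI2'⟩ := exists_sets hG36.1 he hP₀ hQ₀
  have hn : ∀ i, e ∉ I i := fun i h => (Finset.mem_erase.mp (hIsub i h)).1 rfl
  set E' := G.edgeFinset.erase e with hE'
  have hE'c : E'.card + 1 = G.edgeFinset.card := Finset.card_erase_add_one he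
  -- sizes
  have hsum : (I 0).card + (I 1).card + (I 2).card = 2 * E'.card := by
    have h1 : ∑ f ∈ E', (Finset.univ.filter (fun i => f ∈ I i)).card = 2 * E'.card := by
      rw [Finset.sum_congr rfl hI2, Finset.sum_const, smul_eq_mul, mul_comm]
    rw [← h1]
    simp only [Finset.card_filter]
    rw [Finset.sum_comm, Fin.sum_univ_three]
    have h2 : ∀ i, ∑ f ∈ E', (if f ∈ I i then 1 else 0) = (I i).card := by
      intro i
      rw [← Finset.card_filter]
      congr 1
      ext f
      rw [Finset.mem_filter]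
      exact ⟨fun h => h.2, fun h => ⟨hIsub i h, h⟩⟩
    rw [h2, h2, h2]
  have hins : ∀ {W : Type} [DecidableEq W] [Fintype W] (h : Sym2 V → Finset W)
      (S : Finset (Sym2 V)), ins h S Finset.univ = S.card := by
    intro W _ _ h S
    rw [ins, Finset.filter_eq_self.mpr (fun f _ => Finset.subset_univ _)]
  have b0 : (I 0).card + 3 ≤ 2 * Fintype.card (Contracted e) := by
    have := hI0 Finset.univ (by rw [Finset.card_univ]; omega)
    rwa [hins, Finset.card_univ] at this
  have b1 : (I 1).card + 3 ≤ 2 * Fintype.card (Contracted e) := by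
    have := hI1 Finset.univ (by rw [Finset.card_univ]; omega)
    rwa [hins, Finset.card_univ] at this
  have b2 : (I 2).card + 1 + 3 ≤ 2 * Fintype.card V := by
    have := hI2' Finset.univ (by rw [Finset.card_univ]; omega)
    rwa [hins, Finset.card_univ, Finset.card_insert_of_notMem (hn 2)] at this
  have hEc := hG36.2
  have c0 : (I 0).card + 3 = 2 * Fintype.card (Contracted e) := by omega
  have c1 : (I 1).card + 3 = 2 * Fintype.card (Contracted e) := by omega
  have c2 : (I 2).card + 1 + 3 = 2 * Fintype.card V := by omega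
  -- membership patterns
  have hpat : ∀ f ∈ E', (f ∈ I 0 ∧ f ∈ I 1 ∧ f ∉ I 2) ∨ (f ∈ I 0 ∧ f ∉ I 1 ∧ f ∈ I 2) ∨
      (f ∉ I 0 ∧ f ∈ I 1 ∧ f ∈ I 2) := by
    intro f hf
    have h1 := hI2 f hf
    rw [Finset.card_filter, Fin.sum_univ_three] at h1
    clear * - h1
    by_cases a0 : f ∈ I 0 <;> by_cases a1 : f ∈ I 1 <;> by_cases a2 : f ∈ I 2 <;>
      simp_all
  set T₃ := E'.filter (fun f => f ∉ I 2) with hT₃
  set T₂ := E'.filter (fun f => f ∉ I 0) with hT₂
  set T₁ := E'.filter (fun f => f ∉ I 1) with hT₁
  have heT : e ∉ E' := Finset.notMem_erase _ _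
  have hmemU : ∀ (p q : Sym2 V → Prop) [DecidablePred p] [DecidablePred q]
      (K : Finset (Sym2 V)), K ⊆ E' →
      (∀ f ∈ E', (p f ∨ q f) ↔ f ∈ K) → E'.filter p ∪ E'.filter q = K := by
    intro p q _ _ K hK hpq
    ext f
    rw [Finset.mem_union, Finset.mem_filter, Finset.mem_filter, ← and_or_left]
    constructor
    · rintro ⟨h1, h2⟩
      exact (hpq f h1).mp h2
    · intro h
      exact ⟨hK h, (hpq f (hK h)).mpr h⟩
  have u02 : T₁ ∪ T₃ = I 0 := hmemU _ _ _ (hIsub 0) (fun f hf => (pattern (hpat f hf)).1)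
  have u12 : T₂ ∪ T₃ = I 1 := hmemU _ _ _ (hIsub 1) (fun f hf => (pattern (hpat f hf)).2.1)
  have u01 : T₁ ∪ T₂ = I 2 := hmemU _ _ _ (hIsub 2) (fun f hf => (pattern (hpat f hf)).2.2.1)
  have dis : ∀ (p q : Sym2 V → Prop) [DecidablePred p] [DecidablePred q],
      (∀ f ∈ E', ¬ (p f ∧ q f)) → Disjoint (E'.filter p) (E'.filter q) := by
    intro p q _ _ hpq
    rw [Finset.disjoint_left]
    intro f h1 h2
    rw [Finset.mem_filter] at h1 h2
    exact hpq f h1.1 ⟨h1.2, h2.2⟩
  have d12 : Disjoint T₁ T₂ := dis _ _ (fun f hf => (pattern (hpat f hf)).2.2.2.1)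
  have d13 : Disjoint T₁ T₃ := dis _ _ (fun f hf => (pattern (hpat f hf)).2.2.2.2.1)
  have d23 : Disjoint T₂ T₃ := dis _ _ (fun f hf => (pattern (hpat f hf)).2.2.2.2.2.1)
  have k0 : T₁.card + T₃.card = (I 0).card := by
    rw [← u02, Finset.card_union_of_disjoint d13]
  have k1 : T₂.card + T₃.card = (I 1).card := by
    rw [← u12, Finset.card_union_of_disjoint d23]
  have k2 : T₁.card + T₂.card = (I 2).card := by
    rw [← u01, Finset.card_union_of_disjoint d12]
  have e1 : e ∉ T₁ := fun h => heT (Finset.mem_filter.mp h).1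
  have e2 : e ∉ T₂ := fun h => heT (Finset.mem_filter.mp h).1
  have e3 : e ∉ T₃ := fun h => heT (Finset.mem_filter.mp h).1
  have hCh : ∀ f ∈ E', hC e Q₀ f = (contractEnds e f).toFinset := fun f hf =>
    hC_eq (edge_not_diag (Finset.mem_erase.mp hf).2) (Finset.mem_erase.mp hf).1
  have hGh : ∀ f ∈ G.edgeFinset, hG e.toFinset f = (id f : Sym2 V).toFinset := fun f hf =>
    hG_eq (edge_not_diag hf)
  refine ⟨insert e T₁, T₂, T₃, ?_, ?_, d23, ?_, ?_, ?_, ?_, Finset.mem_insert_self _ _,
    ⟨?_, ?_⟩, ⟨?_, ?_⟩, ⟨?_, ?_⟩⟩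
  · rw [Finset.disjoint_insert_left]; exact ⟨e2, d12⟩
  · rw [Finset.disjoint_insert_left]; exact ⟨e3, d13⟩
  · rw [Finset.insert_union, Finset.insert_union]
    have : T₁ ∪ T₂ ∪ T₃ = E' := by
      ext f
      constructor
      · intro h
        rw [Finset.mem_union, Finset.mem_union] at h
        rcases h with (h | h) | h
        · exact (Finset.mem_filter.mp h).1
        · exact (Finset.mem_filter.mp h).1
        · exact (Finset.mem_filter.mp h).1
      · intro hf
        rw [Finset.mem_union, Finset.mem_union, or_assoc]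
        rcases (pattern (hpat f hf)).2.2.2.2.2.2 with h | h | h
        · exact Or.inl (Finset.mem_filter.mpr ⟨hf, h⟩)
        · exact Or.inr (Or.inl (Finset.mem_filter.mpr ⟨hf, h⟩))
        · exact Or.inr (Or.inr (Finset.mem_filter.mpr ⟨hf, h⟩))
    rw [this, hE', Finset.insert_erase he]
  · rw [Finset.card_insert_of_notMem e1]; omega
  · omega
  · omega
  · rw [Finset.insert_union, u01]
    rw [isSparse_iff_sp (h := hG e.toFinset)]
    · exact hI2'
    · intro f hf
      rw [Finset.mem_insert] at hf
      rcases hf with rfl | hf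
      · exact hGh _ he
      · exact hGh f (Finset.mem_of_mem_erase (hIsub 2 hf))
  · rw [Finset.insert_union, u01, Finset.card_insert_of_notMem (hn 2)]
    exact c2
  · rw [Finset.insert_union, u02, Finset.erase_insert (hn 0)]
    rw [isSparse_iff_sp (h := hC e Q₀)]
    · exact hI0
    · intro f hf
      exact hCh f (hIsub 0 hf)
  · rw [Finset.insert_union, u02, Finset.erase_insert (hn 0)]
    exact c0
  · rw [u12, Finset.union_comm, ← Finset.insert_eq, Finset.erase_insert (hn 1)]
    rw [isSparse_iff_sp (h := hC e Q₀)]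
    · exact hI1
    · intro f hf
      exact hCh f (hIsub 1 hf)
  · rw [u12, Finset.union_comm, ← Finset.insert_eq, Finset.erase_insert (hn 1)]
    exact c1

open Classical in
/-- **Full answer to Q1.** A graph with at least four vertices and at least one edge is
(3,6)-tight if and only if it has property (P). -/
theorem result (V : Type) [Fintype V] (G : SimpleGraph V) (hV : 4 ≤ Fintype.card V)
    (hne : G.edgeFinset.Nonempty) : IsTight 3 6 G.edgeFinset id ↔ PropertyP G :=
  ⟨P_of_tight G hV, tight_of_P G hV hne⟩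

end Pool.Agent.Results.MP_eace5d_co.TightPartition
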